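import Mathlib

set_option autoImplicit false

namespace Pool.Agent.H.MP_a78613_co

def nb : Fin 24 → List (Fin 24) :=
  ![[5, 6, 7, 20], [4, 5, 6, 7], [4, 5, 6, 7], [4, 5, 6, 7],
    [1, 2, 3, 8], [0, 1, 2, 3], [0, 1, 2, 3], [0, 1, 2, 3],
    [13, 14, 15, 4], [12, 13, 14, 15], [12, 13, 14, 15], [12, 13, 14, 15],
    [9, 10, 11, 16], [8, 9, 10, 11], [8, 9, 10, 11], [8, 9, 10, 11],
    [21, 22, 23, 12], [20, 21, 22, 23], [20, 21, 22, 23], [20, 21, 22, 23],
    [17, 18, 19, 0], [16, 17, 18, 19], [16, 17, 18, 19], [16, 17, 18, 19]]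

def G : SimpleGraph (Fin 24) where
  Adj u v := v ∈ nb u
  symm := ⟨by decide +kernel⟩
  loopless := ⟨by decide +kernel⟩

instance : DecidableRel G.Adj := fun u v => inferInstanceAs (Decidable (v ∈ nb u))

def go (a : Fin 24) : ℕ → Fin 24 → List (Fin 24) → Bool
  | 0, v, _ => (nb v).contains a
  | k + 1, v, vis => (nb v).any fun w => !vis.contains w && go a k w (w :: vis)

lemma go_false : ∀ a : Fin 24, go a 9 a [a] = false := by decide +kernel

lemma go_sound (a : Fin 24) (g : ℕ → Fin 24) (hi : ∀ s t, s ≤ 9 → t ≤ 9 → g s = g t → s = t)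
    (ha : ∀ s, s < 9 → g (s + 1) ∈ nb (g s)) (hl : a ∈ nb (g 9)) :
    ∀ k j (vis : List (Fin 24)), k + j = 9 → (∀ x ∈ vis, ∃ s, s ≤ j ∧ x = g s) →
      go a k (g j) vis = true
  | 0, j, vis, h, _ => by
    obtain rfl : j = 9 := by omega
    simpa [go] using hl
  | k + 1, j, vis, h, hv => by
    rw [go, List.any_eq_true]
    refine ⟨g (j + 1), ha j (by omega), ?_⟩
    rw [go_sound a g hi ha hl k (j + 1) _ (by omega)]
    · simp only [Bool.and_true, Bool.not_eq_true', List.contains_eq_mem, decide_eq_false_iff_not]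
      intro hm
      obtain ⟨s, h1, h2⟩ := hv _ hm
      have := hi _ _ (by omega) (by omega) h2
      omega
    · intro x hx
      rcases List.mem_cons.1 hx with rfl | hx
      · exact ⟨j + 1, le_rfl, rfl⟩
      · obtain ⟨s, h1, h2⟩ := hv _ hx
        exact ⟨s, by omega, h2⟩

lemma no_ten : ¬ ∃ (v : Fin 24) (c : G.Walk v v), c.IsCycle ∧ c.length = 2 * 5 := by
  rintro ⟨v, c, hc, hl⟩
  have key := go_sound v c.getVert (fun s t hs ht h =>
      hc.getVert_injOn' (by simp only [Set.mem_ofPred_eq]; omega)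
        (by simp only [Set.mem_ofPred_eq]; omega) h)
    (fun s hs => c.adj_getVert_succ (by omega))
    (by
      have h1 := c.adj_getVert_succ (i := 9) (by omega)
      have h2 : c.getVert (9 + 1) = v := c.getVert_of_length_le (by omega)
      rw [h2] at h1
      exact h1) 9 0 [v] rfl (fun x hx => ⟨0, le_rfl, by simpa using hx⟩)
  rw [c.getVert_zero, go_false] at key
  exact absurd key (by decide)

def W : G.Walk 0 0 :=
  .cons (show G.Adj 0 5 by decide) <|
  .cons (show G.Adj 5 1 by decide) <|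
  .cons (show G.Adj 1 6 by decide) <|
  .cons (show G.Adj 6 2 by decide) <|
  .cons (show G.Adj 2 7 by decide) <|
  .cons (show G.Adj 7 3 by decide) <|
  .cons (show G.Adj 3 4 by decide) <|
  .cons (show G.Adj 4 8 by decide) <|
  .cons (show G.Adj 8 13 by decide) <|
  .cons (show G.Adj 13 9 by decide) <|
  .cons (show G.Adj 9 14 by decide) <|
  .cons (show G.Adj 14 10 by decide) <|
  .cons (show G.Adj 10 15 by decide) <|
  .cons (show G.Adj 15 11 by decide) <|
  .cons (show G.Adj 11 12 by decide) <|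
  .cons (show G.Adj 12 16 by decide) <|
  .cons (show G.Adj 16 21 by decide) <|
  .cons (show G.Adj 21 17 by decide) <|
  .cons (show G.Adj 17 22 by decide) <|
  .cons (show G.Adj 22 18 by decide) <|
  .cons (show G.Adj 18 23 by decide) <|
  .cons (show G.Adj 23 19 by decide) <|
  .cons (show G.Adj 19 20 by decide) <|
  .cons (show G.Adj 20 0 by decide) <|
  .nil

lemma ham : G.IsHamiltonian := fun _ => ⟨0, W, by
  rw [SimpleGraph.Walk.isHamiltonianCycle_iff_isCycle_and_length_eq,
    SimpleGraph.Walk.isCycle_def, SimpleGraph.Walk.isTrail_def]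
  refine ⟨⟨by decide +kernel, by simp [W], by decide +kernel⟩, by decide +kernel⟩⟩

lemma col : G.Colorable 2 :=
  ⟨SimpleGraph.Coloring.mk (fun v : Fin 24 => if v.val % 8 < 4 then (0 : Fin 2) else 1)
    (fun {u v} => by revert u v; decide +kernel)⟩

lemma mindeg : G.minDegree = 4 :=
  SimpleGraph.IsRegularOfDegree.minDegree_eq G (by
    intro v
    revert v
    decide +kernel)

end Pool.Agent.H.MP_a78613_co
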